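import Pool.Agent.Helper244.Br.Final

set_option autoImplicit false

/-!
# Weighted Brouwer inequality, helper file for S08645
-/

namespace Pool.Agent.TH495.WBr

open Finset Matrix

/-- The top `K` elements of a finite set with respect to a real function. -/
theorem exists_top {α : Type*} [DecidableEq α] (Q : Finset α) (f : α → ℝ) :
    ∀ K ≤ Q.card, ∃ P ⊆ Q, P.card = K ∧ ∀ p ∈ P, ∀ q ∈ Q, q ∉ P → f q ≤ f p := by
  intro K
  induction K with
  | zero => intro _; exact ⟨∅, by simp, by simp, by simp⟩
  | succ K ih =>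
    intro hK
    obtain ⟨P, hPQ, hPc, hP⟩ := ih (by omega)
    have hne : (Q \ P).Nonempty := by
      rw [← Finset.card_pos, Finset.card_sdiff_of_subset hPQ]
      omega
    obtain ⟨m, hm, hmax⟩ := Finset.exists_max_image (Q \ P) f hne
    rw [Finset.mem_sdiff] at hm
    refine ⟨insert m P, Finset.insert_subset hm.1 hPQ, ?_, ?_⟩
    · rw [Finset.card_insert_of_notMem hm.2, hPc]
    · intro p hp q hq hqP
      rw [Finset.mem_insert, not_or] at hqP
      rcases Finset.mem_insert.1 hp with rfl | hp
      · exact hmax q (Finset.mem_sdiff.2 ⟨hq, hqP.2⟩)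
      · exact hP p hp q hq hqP.2

/-- The combinatorial inequality: if the positive parts of `g ≤ 1` have total at most `K` then
`∑ A g` is at most the sum of the `K` largest values of `A`. -/
theorem top_bound {α : Type*} [DecidableEq α] (Q P : Finset α) (hPQ : P ⊆ Q) (A g : α → ℝ)
    (hne : P.Nonempty)
    (hA : ∀ p ∈ Q, 0 ≤ A p) (hg : ∀ p ∈ Q, g p ≤ 1)
    (htop : ∀ p ∈ P, ∀ q ∈ Q, q ∉ P → A q ≤ A p)
    (hsum : ∑ p ∈ Q, max (g p) 0 ≤ P.card) :
    ∑ p ∈ Q, A p * g p ≤ ∑ p ∈ P, A p := by
  obtain ⟨m, hm, hmin⟩ := Finset.exists_min_image P A hne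
  set τ := A m with hτ
  have hτ0 : 0 ≤ τ := hA m (hPQ hm)
  have h1 : ∀ p ∈ Q, A p * g p ≤ τ * max (g p) 0 + (if p ∈ P then A p - τ else 0) := by
    intro p hp
    have hmx : g p ≤ max (g p) 0 := le_max_left _ _
    have hmx0 : 0 ≤ max (g p) 0 := le_max_right _ _
    by_cases hpP : p ∈ P
    · rw [if_pos hpP]
      have h2 : τ ≤ A p := hmin p hpP
      nlinarith [hg p hp, mul_nonneg (sub_nonneg.2 h2) (sub_nonneg.2 (hg p hp)),
        mul_nonneg hτ0 (sub_nonneg.2 hmx)]
    · rw [if_neg hpP]
      have h2 : A p ≤ τ := htop m hm p hp hpP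
      nlinarith [mul_nonneg (sub_nonneg.2 h2) hmx0, mul_nonneg (hA p hp) (sub_nonneg.2 hmx)]
  calc ∑ p ∈ Q, A p * g p ≤ ∑ p ∈ Q, (τ * max (g p) 0 + (if p ∈ P then A p - τ else 0)) :=
        Finset.sum_le_sum h1
    _ = τ * ∑ p ∈ Q, max (g p) 0 + ∑ p ∈ P, (A p - τ) := by
        rw [Finset.sum_add_distrib, ← Finset.mul_sum]
        congr 1
        rw [← Finset.sum_filter]
        congr 1
        ext x
        simp only [Finset.mem_filter]
        exact ⟨fun h => h.2, fun h => ⟨hPQ h, h⟩⟩
    _ ≤ τ * P.card + ∑ p ∈ P, (A p - τ) := by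
        have := mul_le_mul_of_nonneg_left hsum hτ0
        linarith
    _ = ∑ p ∈ P, A p := by
        rw [Finset.sum_sub_distrib, Finset.sum_const, nsmul_eq_mul]
        ring

section

variable {V : Type} [Fintype V] [DecidableEq V]

/-- `P_ii + P_jj - 2 P_ij ≤ 2` for a symmetric idempotent. -/
theorem tt_le_two (P : Matrix V V ℝ) (hPs : Pᵀ = P) (hPi : P * P = P) (i j : V) (hij : i ≠ j) :
    P i i + P j j - 2 * P i j ≤ 2 := by
  have hsym : ∀ i j, P i j = P j i := fun i j => by
    conv_lhs => rw [← hPs]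
    rfl
  have hmul : ∀ i j, ∑ l, P i l * P j l = P i j := by
    intro i j
    have h := congrFun (congrFun hPi i) j
    rw [Matrix.mul_apply] at h
    rw [← h]
    exact Finset.sum_congr rfl fun l _ => by rw [hsym j l]
  have h0 : 0 ≤ ∑ l, (((if i = l then (1:ℝ) else 0) - P i l)
      - ((if j = l then (1:ℝ) else 0) - P j l)) ^ 2 :=
    Finset.sum_nonneg fun _ _ => sq_nonneg _
  have h1 : ∑ l, (((if i = l then (1:ℝ) else 0) - P i l)
      - ((if j = l then (1:ℝ) else 0) - P j l)) ^ 2
      = 2 - (P i i + P j j - 2 * P i j) := by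
    have e : ∀ l, (((if i = l then (1:ℝ) else 0) - P i l)
      - ((if j = l then (1:ℝ) else 0) - P j l)) ^ 2
      = (if i = l then 1 else 0) + (if j = l then 1 else 0)
        - 2 * (if i = l then P i l else 0) + 2 * (if i = l then P j l else 0)
        + 2 * (if j = l then P i l else 0) - 2 * (if j = l then P j l else 0)
        + (P i l * P i l - 2 * (P i l * P j l) + P j l * P j l) := by
      intro l
      by_cases h1 : i = l
      · by_cases h2 : j = l
        · exact absurd (h1.trans h2.symm) hij
        · simp only [h1, h2, if_true, if_false]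
          ring
      · by_cases h2 : j = l
        · simp only [h1, h2, if_true, if_false]
          ring
        · simp only [h1, h2, if_false]
          ring
    rw [Finset.sum_congr rfl fun l _ => e l]
    simp only [Finset.sum_add_distrib, Finset.sum_sub_distrib, ← Finset.mul_sum,
      Finset.sum_ite_eq, Finset.mem_univ, if_true, hmul]
    rw [hsym j i]
    ring
  linarith

end

/-- Sum over ordered pairs of a symmetric function with zero diagonal. -/
theorem sum_ordered {n : ℕ} (f : Fin n → Fin n → ℝ) (hs : ∀ i j, f i j = f j i)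
    (h0 : ∀ i, f i i = 0) :
    ∑ i, ∑ j, f i j = 2 * ∑ i, ∑ j, (if i < j then f i j else 0) := by
  have h1 : ∀ i j, f i j = (if i < j then f i j else 0) + (if j < i then f i j else 0) := by
    intro i j
    rcases lt_trichotomy i j with h | h | h
    · rw [if_pos h, if_neg (not_lt.2 h.le), add_zero]
    · subst h
      simp [h0]
    · rw [if_neg (not_lt.2 h.le), if_pos h, zero_add]
  have h2 : ∑ i, ∑ j, (if j < i then f i j else 0) = ∑ i, ∑ j, (if i < j then f i j else 0) := by
    rw [Finset.sum_comm]
    refine Finset.sum_congr rfl fun i _ => Finset.sum_congr rfl fun j _ => ?_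
    rw [hs]
  calc ∑ i, ∑ j, f i j = ∑ i, ∑ j, ((if i < j then f i j else 0) + (if j < i then f i j else 0)) :=
        Finset.sum_congr rfl fun i _ => Finset.sum_congr rfl fun j _ => h1 i j
    _ = _ := by
        simp only [Finset.sum_add_distrib]
        rw [h2]
        ring

/-- The pairs `i < j` as a finset. -/
def pairs (n : ℕ) : Finset (Fin n × Fin n) := univ.filter fun p => p.1 < p.2

theorem sum_pairs {n : ℕ} (f : Fin n → Fin n → ℝ) :
    ∑ i, ∑ j, (if i < j then f i j else 0) = ∑ p ∈ pairs n, f p.1 p.2 := by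
  unfold pairs
  rw [Finset.sum_filter, ← Finset.univ_product_univ, Finset.sum_product]

theorem card_pairs (n : ℕ) : (pairs n).card = n.choose 2 := by
  have h : ((pairs n).card : ℝ) = (n.choose 2 : ℕ) := by
    have h1 : ((pairs n).card : ℝ) = ∑ p ∈ pairs n, (1 : ℝ) := by simp
    rw [h1, ← sum_pairs (fun _ _ => 1)]
    have h2 := sum_ordered (n := n) (fun i j => if i = j then 0 else 1)
      (fun i j => by simp [eq_comm]) (by simp)
    have h3 : ∑ i : Fin n, ∑ j : Fin n, (if i < j then (if i = j then (0:ℝ) else 1) else 0)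
        = ∑ i : Fin n, ∑ j : Fin n, (if i < j then (1:ℝ) else 0) := by
      refine Finset.sum_congr rfl fun i _ => Finset.sum_congr rfl fun j _ => ?_
      by_cases h : i < j
      · simp [h, h.ne]
      · simp [h]
    rw [h3] at h2
    have h4 : ∑ i : Fin n, ∑ j : Fin n, (if i = j then (0:ℝ) else 1) = n * (n - 1) := by
      have : ∀ i : Fin n, ∑ j : Fin n, (if i = j then (0:ℝ) else 1) = n - 1 := by
        intro i
        have e : ∀ j : Fin n, (if i = j then (0:ℝ) else 1) = 1 - (if i = j then 1 else 0) := by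
          intro j
          split_ifs <;> simp
        rw [Finset.sum_congr rfl fun j _ => e j, Finset.sum_sub_distrib]
        simp
      rw [Finset.sum_congr rfl fun i _ => this i]
      rw [Finset.sum_const, Finset.card_univ, Fintype.card_fin, nsmul_eq_mul]
    rw [h4] at h2
    rw [Nat.cast_choose_two]
    linarith
  exact_mod_cast h

/-- Main theorem: the weighted Brouwer inequality. -/
theorem main (n : ℕ) (A : Matrix (Fin n) (Fin n) ℝ) (hAs : A.IsSymm) (hA0 : ∀ i j, 0 ≤ A i j)
    (hAd : ∀ i, A i i = 0)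
    (hL : (Matrix.diagonal (fun i => ∑ j, A i j) - A).IsHermitian)
    (k : ℕ) (hk1 : 1 ≤ k) (hkn : k ≤ n - 1) (s : Finset (Fin n)) (hs : s.card = k) :
    ∃ P : Finset (Fin n × Fin n), P.card = (k + 1).choose 2 ∧ (∀ p ∈ P, p.1 < p.2) ∧
      ∑ i ∈ s, hL.eigenvalues i ≤
        (∑ i, ∑ j, if i < j then A i j else 0) + ∑ p ∈ P, A p.1 p.2 := by
  classical
  -- the top pairs
  have hKQ : (k + 1).choose 2 ≤ (pairs n).card := by
    rw [card_pairs]
    exact Nat.choose_le_choose 2 (by omega)
  obtain ⟨Pt, hPQ, hPc, htop⟩ := exists_top (pairs n) (fun p => A p.1 p.2) _ hKQ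
  refine ⟨Pt, hPc, fun p hp => ?_, ?_⟩
  · have := hPQ hp
    unfold pairs at this
    exact (Finset.mem_filter.1 this).2
  -- the eigenvectors
  set M : Matrix (Fin n) (Fin n) ℝ := Matrix.diagonal (fun i => ∑ j, A i j) - A with hM
  set u : Fin n → Fin n → ℝ := fun a i => hL.eigenvectorBasis a i with hu
  set lam : Fin n → ℝ := hL.eigenvalues with hlam
  have hAsym : ∀ i j, A i j = A j i := fun i j => by
    conv_lhs => rw [← hAs]
    rfl
  have hMu : ∀ a, M.mulVec (u a) = lam a • u a := fun a => hL.mulVec_eigenvectorBasis a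
  have hM1 : ∀ i, ∑ j, M i j = 0 := by
    intro i
    simp only [hM, Matrix.sub_apply, Matrix.diagonal_apply]
    rw [Finset.sum_sub_distrib]
    simp
  have hMsym : ∀ i j, M i j = M j i := by
    intro i j
    simp only [hM, Matrix.sub_apply, Matrix.diagonal_apply]
    rw [hAsym i j]
    by_cases h : i = j
    · subst h; rfl
    · rw [if_neg h, if_neg (fun h' => h h'.symm)]
  have horth : ∀ a b, ∑ i, u a i * u b i = if a = b then 1 else 0 := by
    intro a b
    have h := hL.eigenvectorBasis.orthonormal
    rw [orthonormal_iff_ite] at h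
    have h1 := h b a
    rw [PiLp.inner_apply] at h1
    simp only [RCLike.inner_apply, conj_trivial] at h1
    rw [← hu] at *
    have h2 : (if b = a then (1:ℝ) else 0) = if a = b then 1 else 0 := by
      simp only [eq_comm]
    rw [← h2, ← h1]
  set T := s.filter fun a => lam a ≠ 0 with hT
  have hsum : ∑ a ∈ s, lam a = ∑ a ∈ T, lam a := by
    rw [hT, Finset.sum_filter_ne_zero]
  have hu1 : ∀ a ∈ T, ∑ i, u a i = 0 := by
    intro a ha
    have h1 : ∑ i, (M.mulVec (u a)) i = 0 := by
      simp only [Matrix.mulVec, dotProduct]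
      rw [Finset.sum_comm]
      refine Finset.sum_eq_zero fun j _ => ?_
      rw [← Finset.sum_mul]
      have : ∑ i, M i j = 0 := by
        rw [← hM1 j]
        exact Finset.sum_congr rfl fun i _ => hMsym i j
      rw [this, zero_mul]
    rw [hMu a] at h1
    simp only [Pi.smul_apply, smul_eq_mul] at h1
    rw [← Finset.mul_sum] at h1
    exact (mul_eq_zero.1 h1).resolve_left (Finset.mem_filter.1 ha).2
  set P : Matrix (Fin n) (Fin n) ℝ := Matrix.of fun i j => ∑ a ∈ T, u a i * u a j with hP
  have hPsym : ∀ i j, P i j = P j i := by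
    intro i j
    simp only [hP, Matrix.of_apply]
    exact Finset.sum_congr rfl fun a _ => mul_comm _ _
  have hPs : Pᵀ = P := by
    ext i j
    exact hPsym j i
  have hPi : P * P = P := by
    ext i j
    rw [Matrix.mul_apply]
    simp only [hP, Matrix.of_apply]
    have e : ∀ l, (∑ a ∈ T, u a i * u a l) * (∑ b ∈ T, u b l * u b j)
        = ∑ a ∈ T, ∑ b ∈ T, (u a i * u b j) * (u a l * u b l) := by
      intro l
      rw [Finset.sum_mul_sum]
      refine Finset.sum_congr rfl fun a _ => Finset.sum_congr rfl fun b _ => ?_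
      ring
    rw [Finset.sum_congr rfl fun l _ => e l, Finset.sum_comm]
    refine Finset.sum_congr rfl fun a ha => ?_
    rw [Finset.sum_comm]
    simp_rw [← Finset.mul_sum, horth]
    simp [ha]
  have hP1 : ∀ i, ∑ j, P i j = 0 := by
    intro i
    simp only [hP, Matrix.of_apply]
    rw [Finset.sum_comm]
    refine Finset.sum_eq_zero fun a ha => ?_
    rw [← Finset.mul_sum, hu1 a ha, mul_zero]
  have htr : ∑ i, P i i = T.card := by
    simp only [hP, Matrix.of_apply]
    rw [Finset.sum_comm]
    simp_rw [horth]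
    simp
  have hTk : (T.card : ℝ) ≤ k := by
    rw [← hs]
    exact_mod_cast Finset.card_filter_le _ _
  -- the sum of the eigenvalues
  have heig : ∑ a ∈ T, lam a = ∑ i, ∑ j, M i j * P i j := by
    have h1 : ∀ a, lam a = ∑ i, ∑ j, M i j * (u a i * u a j) := by
      intro a
      have h2 : ∑ i, u a i * (M.mulVec (u a)) i = lam a := by
        rw [hMu a]
        simp only [Pi.smul_apply, smul_eq_mul]
        have : ∀ i, u a i * (lam a * u a i) = lam a * (u a i * u a i) := fun i => by ring
        rw [Finset.sum_congr rfl fun i _ => this i, ← Finset.mul_sum, horth a a]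
        simp
      rw [← h2]
      refine Finset.sum_congr rfl fun i _ => ?_
      simp only [Matrix.mulVec, dotProduct]
      rw [Finset.mul_sum]
      refine Finset.sum_congr rfl fun j _ => ?_
      ring
    rw [Finset.sum_congr rfl fun a _ => h1 a, Finset.sum_comm]
    refine Finset.sum_congr rfl fun i _ => ?_
    rw [Finset.sum_comm]
    refine Finset.sum_congr rfl fun j _ => ?_
    simp only [hP, Matrix.of_apply]
    rw [Finset.mul_sum]
  have hMP : ∑ i, ∑ j, M i j * P i j = ∑ p ∈ pairs n, A p.1 p.2 * (P p.1 p.1 + P p.2 p.2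
      - 2 * P p.1 p.2) := by
    rw [← sum_pairs (fun i j => A i j * (P i i + P j j - 2 * P i j))]
    have h1 := sum_ordered (fun i j => A i j * (P i i + P j j - 2 * P i j))
      (fun i j => by rw [hAsym i j, hPsym i j]; ring) (fun i => by rw [hAd i, zero_mul])
    have h2 : ∑ i, ∑ j, A i j * (P i i + P j j - 2 * P i j)
        = 2 * ∑ i, ∑ j, M i j * P i j := by
      have e1 : ∑ i, ∑ j, A i j * P i i = ∑ i, (∑ j, A i j) * P i i :=
        Finset.sum_congr rfl fun i _ => (Finset.sum_mul _ _ _).symm
      have e2 : ∑ i, ∑ j, A i j * P j j = ∑ i, (∑ j, A i j) * P i i := by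
        rw [Finset.sum_comm]
        refine Finset.sum_congr rfl fun j _ => ?_
        rw [Finset.sum_mul]
        exact Finset.sum_congr rfl fun i _ => by rw [hAsym i j]
      have e3 : ∑ i, ∑ j, M i j * P i j = ∑ i, (∑ j, A i j) * P i i
          - ∑ i, ∑ j, A i j * P i j := by
        rw [← Finset.sum_sub_distrib]
        refine Finset.sum_congr rfl fun i _ => ?_
        have : ∀ j, M i j * P i j = (if i = j then (∑ j, A i j) * P i j else 0)
            - A i j * P i j := by
          intro j
          simp only [hM, Matrix.sub_apply, Matrix.diagonal_apply]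
          split_ifs <;> ring
        rw [Finset.sum_congr rfl fun j _ => this j, Finset.sum_sub_distrib]
        simp
      have e4 : ∑ i, ∑ j, A i j * (P i i + P j j - 2 * P i j)
          = ∑ i, ∑ j, A i j * P i i + ∑ i, ∑ j, A i j * P j j
            - 2 * ∑ i, ∑ j, A i j * P i j := by
        simp only [Finset.mul_sum, ← Finset.sum_sub_distrib, ← Finset.sum_add_distrib]
        refine Finset.sum_congr rfl fun i _ => Finset.sum_congr rfl fun j _ => ?_
        ring
      rw [e4, e1, e2, e3]
      ring
    linarith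
  -- Brouwer's inequality for the graph of the positive pairs
  set g : Fin n × Fin n → ℝ := fun p => P p.1 p.1 + P p.2 p.2 - 2 * P p.1 p.2 - 1 with hg
  have hBr := Pool.Br.core_of_cut P hPs hPi hP1 (fun i j => i ≠ j ∧ 0 < g (i, j))
    (fun i j h => ⟨h.1.symm, by
      have := h.2
      simp only [hg] at this ⊢
      rw [hPsym j i]
      linarith⟩)
    (fun S => Pool.Br.cut P hPs hPi hP1 (fun i j => i ≠ j ∧ 0 < g (i, j)) S)
  have hpos : 2 * ∑ p ∈ pairs n, max (g p) 0 ≤ (T.card : ℝ) ^ 2 + T.card := by
    rw [htr] at hBr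
    refine le_trans (le_of_eq ?_) hBr
    rw [← sum_pairs (fun i j => max (g (i, j)) 0)]
    have h1 := sum_ordered (fun i j => if i ≠ j ∧ 0 < g (i, j) then
      (P i i + P j j - 2 * P i j - 1) else 0)
      (fun i j => by
        have e : g (i, j) = g (j, i) := by
          simp only [hg]
          rw [hPsym i j]
          ring
        have e2 : P i i + P j j - 2 * P i j - 1 = P j j + P i i - 2 * P j i - 1 := by
          rw [hPsym i j]
          ring
        rw [e, e2]
        simp only [ne_comm]) (fun i => by simp)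
    rw [h1]
    congr 1
    refine Finset.sum_congr rfl fun i _ => Finset.sum_congr rfl fun j _ => ?_
    by_cases hij : i < j
    · rw [if_pos hij, if_pos hij]
      by_cases hp : 0 < g (i, j)
      · rw [if_pos ⟨hij.ne, hp⟩, max_eq_left hp.le]
      · rw [if_neg (fun h => hp h.2), max_eq_right (not_lt.1 hp)]
    · rw [if_neg hij, if_neg hij]
  have hK : (((k + 1).choose 2 : ℕ) : ℝ) = ((k : ℝ) ^ 2 + k) / 2 := by
    rw [Nat.cast_choose_two]
    push_cast
    ring
  have hPne : Pt.Nonempty := by
    rw [← Finset.card_pos, hPc]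
    exact Nat.choose_pos (by omega)
  have hpQ : ∀ p ∈ pairs n, p.1 < p.2 := by
    intro p hp
    unfold pairs at hp
    exact (Finset.mem_filter.1 hp).2
  have hfin := top_bound (pairs n) Pt hPQ (fun p => A p.1 p.2) g hPne (fun p _ => hA0 _ _)
    (fun p hp => by
      have := tt_le_two P hPs hPi p.1 p.2 (hpQ p hp).ne
      simp only [hg]
      linarith) htop (by
      rw [hPc, hK]
      have h0 : (0:ℝ) ≤ T.card := Nat.cast_nonneg _
      nlinarith)
  rw [hsum, heig, hMP, sum_pairs (fun i j => A i j)]
  have hsplit : ∑ p ∈ pairs n, A p.1 p.2 * (P p.1 p.1 + P p.2 p.2 - 2 * P p.1 p.2)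
      = ∑ p ∈ pairs n, A p.1 p.2 + ∑ p ∈ pairs n, A p.1 p.2 * g p := by
    rw [← Finset.sum_add_distrib]
    refine Finset.sum_congr rfl fun p _ => ?_
    simp only [hg]
    ring
  rw [hsplit]
  linarith

end Pool.Agent.TH495.WBr
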