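import Pool.Agent.Helper861.DeltaD

set_option autoImplicit false

/-!
# `ν(G) ≥ δ(G)`: the Strong Arnold Property for the sequential construction

The ordering and the generic sequential construction are those of `Helper861.DeltaA-D`. New here:
the constructed positive semidefinite matrix has the Strong Arnold Property, because each vector is
orthogonal to a linearly independent set of earlier vectors.
-/

open Matrix Finset

namespace Pool.Agent.TH495.NuDelta

open Pool.Agent.Helper861.Delta

variable {F : Type*} [Field F]

/-- The main algebraic theorem of `DeltaC`, with the independence of the sets `N k` recorded. -/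
theorem exists_conf_indep [Infinite F] {N : ℕ → Finset ℕ} (hN : ∀ k, N k ⊆ range k)
    (hMA : ∀ i k, i < k → (N i).card ≤ (N k ∩ range i).card) (n r : ℕ)
    (hr : ∀ k < n, (N k).card < r) :
    ∃ v : ℕ → Fin r → F, (∀ j k, j < k → k < n → (v j ⬝ᵥ v k = 0 ↔ j ∈ N k)) ∧
      ∀ k < n, RI v (N k) (N k) := by
  classical
  have key : ∃ t : ℕ → Fin r → F, ∀ p ∈ ((range n) ×ˢ (range n)).filter
      (fun p => p.1 ≤ p.2 ∧ p.1 ∉ N p.2),
      (p.1 < p.2 → conf N t p.1 ⬝ᵥ conf N t p.2 ≠ 0) ∧
      RI (conf N t) (N p.2) (N p.2) := by
    apply exists_all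
    · intro p _
      refine ZO.and ?_ (ZO_RI hN rfl)
      by_cases h : p.1 < p.2
      · have := ZO_dot (F := F) (r := r) hN p.1 p.2
        simpa [h] using this
      · have := ZO_true (F := F) (r := r)
        simpa [h] using this
    · rintro ⟨j, k⟩ hp
      rw [Finset.mem_filter, Finset.mem_product] at hp
      obtain ⟨⟨_, hk⟩, hjk, hjN⟩ := hp
      simp only at hk hjk hjN ⊢
      have hkr := hr k (Finset.mem_range.mp hk)
      have e2 := GR (F := F) hN hMA k r (N k) (N k) (Adm_N hN hMA k) (Adm_N hN hMA k) rfl hkr
      have z2 := ZO_RI (F := F) (r := r) hN (S := N k) (Y := N k) rfl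
      by_cases hlt : j < k
      swap
      · obtain ⟨t, ht⟩ := e2
        exact ⟨t, fun h => absurd h hlt, ht⟩
      have hAdm : Adm N k (insert j (N k)) :=
        (Adm_N hN hMA k).superset (Finset.subset_insert _ _)
          (Finset.insert_subset (Finset.mem_range.mpr hlt) (hN k))
      have hcard : (insert j (N k)).card = (N k).card + 1 := Finset.card_insert_of_notMem hjN
      have e1 : ∃ t : ℕ → Fin r → F, RI (conf N t) (insert j (N k)) (insert j (N k)) := by
        rcases Nat.lt_or_ge (insert j (N k)).card r with h | h
        · exact GR hN hMA k r _ _ hAdm hAdm rfl h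
        · exact GR' hN hMA r k _ hAdm (by omega)
      have z1 := ZO_RI (F := F) (r := r) hN (S := insert j (N k)) (Y := insert j (N k)) rfl
      obtain ⟨t, h1, h2⟩ := z1.exists_and z2 e1 e2
      set v := conf N t with hv
      have hD : (gram v (N k)).det ≠ 0 := (RI_gram v (N k)).mpr h2
      obtain ⟨x, hx1, hx2⟩ := exists_orth (N k) v (v j) (fun c hc => by
        have h3 := h1 (fun i => if i = j then -1 else c i) (fun y _ => by
          rw [← sum_smul_dot, Finset.sum_insert hjN, if_pos rfl]
          have h4 : ∑ i ∈ N k, (if i = j then (-1 : F) else c i) • v i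
              = ∑ i ∈ N k, c i • v i := by
            refine Finset.sum_congr rfl fun i hi => ?_
            rw [if_neg (fun e : i = j => hjN (e ▸ hi))]
          rw [h4, ← hc]
          simp) j (Finset.mem_insert_self _ _)
        simp at h3)
      have hNk : ∀ i ∈ N k, conf N (Function.update t k x) i = v i := fun i hi =>
        conf_update_lt hN t k x i (Finset.mem_range.mp (hN k hi))
      refine ⟨Function.update t k x, fun _ => ?_, ?_⟩
      · rw [conf_update_lt hN t k x j hlt, conf_update_self hN t k x hx1, dotProduct_smul,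
          smul_eq_mul]
        exact mul_ne_zero hD hx2
      · intro a ha
        apply h2
        intro y hy
        refine Eq.trans ?_ (ha y hy)
        refine Finset.sum_congr rfl fun i hi => ?_
        rw [hNk i hi, hNk y hy]
  obtain ⟨t, ht⟩ := key
  refine ⟨conf N t, fun j k hjk hk => ⟨fun h => ?_, fun h => conf_orth hN t k j h⟩, ?_⟩
  · by_contra hjN
    refine (ht (j, k) ?_).1 hjk h
    rw [Finset.mem_filter, Finset.mem_product]
    exact ⟨⟨Finset.mem_range.mpr (by omega), Finset.mem_range.mpr hk⟩, hjk.le, hjN⟩
  · intro k hk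
    refine (ht (k, k) ?_).2
    rw [Finset.mem_filter, Finset.mem_product]
    refine ⟨⟨Finset.mem_range.mpr hk, Finset.mem_range.mpr hk⟩, le_rfl, fun h => ?_⟩
    have := Finset.mem_range.mp (hN k h)
    omega

/-- **The Strong Arnold Property** of a matrix built from a sequential configuration. -/
theorem sap_of_seq {V : Type*} [Fintype V] [DecidableEq V] (G : SimpleGraph V)
    (r n : ℕ) (N : ℕ → Finset ℕ) (v : ℕ → Fin r → ℝ)
    (g : V → ℕ) (hg : ∀ x, g x < n) (hinj : Function.Injective g)
    (hadj : ∀ x y, g x < g y → (¬ G.Adj x y → g x ∈ N (g y)))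
    (hind : ∀ k < n, RI v (N k) (N k)) :
    let W : Matrix V (Fin r) ℝ := Matrix.of fun x => v (g x)
    ∀ X : Matrix V V ℝ, X.IsSymm → (∀ i j : V, (i = j ∨ G.Adj i j) → X i j = 0) →
      (W * Wᵀ) * X = 0 → X = 0 := by
  intro W X hX hX0 hWX
  -- `Wᵀ X = 0`
  have h1 : Wᵀ * X = 0 := by
    have h2 : (Wᵀ * X)ᵀ * (Wᵀ * X) = 0 := by
      rw [Matrix.transpose_mul, Matrix.transpose_transpose, Matrix.mul_assoc, ← Matrix.mul_assoc W,
        hWX, Matrix.mul_zero]
    have h3 : (Wᵀ * X)ᴴ * (Wᵀ * X) = 0 := by
      rw [Matrix.conjTranspose_eq_transpose_of_trivial]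
      exact h2
    exact Matrix.conjTranspose_mul_self_eq_zero.mp h3
  have hsym : ∀ x y, X x y = X y x := fun x y => by
    conv_lhs => rw [← hX]
    rfl
  have h4 : ∀ y, ∑ x, X x y • v (g x) = 0 := by
    intro y
    funext c
    have := congrFun (congrFun h1 c) y
    simp only [Matrix.mul_apply, Matrix.transpose_apply, W, Matrix.of_apply,
      Matrix.zero_apply] at this
    rw [Finset.sum_apply]
    simp only [Pi.smul_apply, smul_eq_mul, Pi.zero_apply]
    rw [← this]
    exact Finset.sum_congr rfl fun x _ => mul_comm _ _
  -- downward induction on the position of the later vertex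
  have key : ∀ m : ℕ, ∀ x y : V, n ≤ g y + m → g x < g y → X x y = 0 := by
    intro m
    induction m with
    | zero =>
      intro x y hy _
      have := hg y
      omega
    | succ m ih =>
      intro x y hy hxy
      by_cases hAd : G.Adj x y
      · exact hX0 x y (Or.inr hAd)
      -- the relation
      let a : ℕ → ℝ := fun i => ∑ z, if g z = i then X z y else 0
      have ha : ∀ z, a (g z) = X z y := by
        intro z
        simp only [a]
        rw [Finset.sum_eq_single z]
        · simp
        · intro b _ hb
          rw [if_neg]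
          exact fun h => hb (hinj h)
        · intro h
          exact absurd (Finset.mem_univ z) h
      have hzero : ∀ z, g z ∉ N (g y) → X z y = 0 := by
        intro z hz
        rcases lt_trichotomy (g z) (g y) with h | h | h
        · by_contra hne
          apply hz
          apply hadj z y h
          intro hAdj
          exact hne (hX0 z y (Or.inr hAdj))
        · exact hX0 z y (Or.inl (hinj h))
        · rw [hsym z y]
          exact ih y z (by omega) h
      have hrel : ∑ i ∈ N (g y), a i • v i = 0 := by
        rw [← h4 y]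
        have e1 : ∀ i, a i • v i = ∑ z, if g z = i then X z y • v (g z) else 0 := by
          intro i
          simp only [a]
          rw [Finset.sum_smul]
          refine Finset.sum_congr rfl fun z _ => ?_
          split_ifs with h
          · rw [h]
          · simp
        rw [Finset.sum_congr rfl fun i _ => e1 i, Finset.sum_comm]
        refine Finset.sum_congr rfl fun z _ => ?_
        rw [Finset.sum_ite_eq]
        split_ifs with h
        · rfl
        · rw [hzero z h, zero_smul]
      have h5 := hind (g y) (hg y) a (fun w _ => by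
        rw [← sum_smul_dot, hrel, zero_dotProduct])
      have h6 := h5 (g x) (hadj x y hxy hAd)
      rw [ha x] at h6
      exact h6
  ext x y
  rcases lt_trichotomy (g x) (g y) with h | h | h
  · exact key n x y (by omega) h
  · exact hX0 x y (Or.inl (hinj h))
  · rw [hsym x y]
    exact key n y x (by omega) h

/-- **`ν(G) ≥ δ(G)`.** -/
theorem nu_ge_delta (V : Type*) [Fintype V] [DecidableEq V] (G : SimpleGraph V)
    [DecidableRel G.Adj] :
    ∃ A : Matrix V V ℝ, A.PosSemidef ∧
      (∀ i j : V, i ≠ j → (A i j ≠ 0 ↔ G.Adj i j)) ∧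
      (∀ X : Matrix V V ℝ, X.IsSymm → (∀ i j : V, (i = j ∨ G.Adj i j) → X i j = 0) →
        A * X = 0 → X = 0) ∧
      A.rank + G.minDegree ≤ Fintype.card V := by
  classical
  rcases isEmpty_or_nonempty V with hV | hV
  · refine ⟨0, Matrix.PosSemidef.zero, fun i => isEmptyElim i, fun X _ _ _ => ?_, ?_⟩
    · ext i
      exact isEmptyElim i
    · rw [Matrix.rank_zero, SimpleGraph.minDegree_of_subsingleton]
      simp
  obtain ⟨f, hinj, hf⟩ := exists_greedy (fun u w : V => ¬ G.Adj u w) (Fintype.card V) le_rfl
  set n := Fintype.card V with hn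
  have hδ : G.minDegree < n := G.minDegree_lt_card
  obtain ⟨r, hr⟩ : ∃ r, r + G.minDegree = n := ⟨n - G.minDegree, by omega⟩
  have himg : (range n).image f = univ := by
    apply Finset.eq_univ_of_card
    rw [Finset.card_image_of_injOn hinj, Finset.card_range]
  let N : ℕ → Finset ℕ := fun k =>
    if k < n then (range k).filter fun l => ¬ G.Adj (f k) (f l) else range k
  have hNlt : ∀ k < n, N k = (range k).filter fun l => ¬ G.Adj (f k) (f l) := fun k hk => by
    simp only [N]
    rw [if_pos hk]
  have hNge : ∀ k, ¬ k < n → N k = range k := fun k hk => by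
    simp only [N]
    rw [if_neg hk]
  have hN : ∀ k, N k ⊆ range k := by
    intro k
    by_cases hk : k < n
    · rw [hNlt k hk]
      exact Finset.filter_subset _ _
    · rw [hNge k hk]
  have hMA : ∀ i k, i < k → (N i).card ≤ (N k ∩ range i).card := by
    intro i k hik
    by_cases hk : k < n
    · have h1 : N k ∩ range i = (range i).filter fun l => ¬ G.Adj (f k) (f l) := by
        rw [hNlt k hk]
        ext l
        simp only [Finset.mem_inter, Finset.mem_filter, Finset.mem_range]
        constructor
        · rintro ⟨⟨_, h2⟩, h3⟩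
          exact ⟨h3, h2⟩
        · rintro ⟨h2, h3⟩
          exact ⟨⟨by omega, h3⟩, h2⟩
      rw [h1, hNlt i (by omega)]
      refine hf i (by omega) (f k) ?_
      intro hmem
      obtain ⟨l, hl, hlk⟩ := Finset.mem_image.mp hmem
      have hl' := Finset.mem_range.mp hl
      have : l = k := hinj (by simp; omega) (by simpa using hk) hlk
      omega
    · rw [hNge k hk]
      have h1 : range k ∩ range i = range i := by
        ext l
        simp only [Finset.mem_inter, Finset.mem_range]
        omega
      rw [h1]
      exact Finset.card_le_card (hN i)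
  have hcard : ∀ k < n, (N k).card < r := by
    intro k hk
    have h1 : ((N k).image f) ⊆ (insert (f k) (G.neighborFinset (f k)))ᶜ := by
      intro x hx
      obtain ⟨l, hl, rfl⟩ := Finset.mem_image.mp hx
      rw [hNlt k hk, Finset.mem_filter, Finset.mem_range] at hl
      rw [Finset.mem_compl, Finset.mem_insert, not_or]
      refine ⟨fun h => ?_, fun h => hl.2 ((G.mem_neighborFinset _ _).mp h)⟩
      have : l = k := hinj (by simp; omega) (by simp; omega) h
      omega
    have h2 : ((N k).image f).card = (N k).card := by
      apply Finset.card_image_of_injOn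
      intro a ha b hb hab
      have ha' := Finset.mem_range.mp (hN k ha)
      have hb' := Finset.mem_range.mp (hN k hb)
      exact hinj (by simp; omega) (by simp; omega) hab
    have h3 := Finset.card_le_card h1
    rw [h2, Finset.card_compl, Finset.card_insert_of_notMem (by simp),
      G.card_neighborFinset_eq_degree] at h3
    have h4 := G.minDegree_le_degree (f k)
    have h5 := G.degree_lt_card_verts (f k)
    omega
  obtain ⟨v, hv, hvI⟩ := exists_conf_indep (F := ℝ) hN hMA n r hcard
  have hsurj : ∀ x : V, ∃ k, k < n ∧ f k = x := by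
    intro x
    have : x ∈ (range n).image f := by rw [himg]; exact Finset.mem_univ x
    obtain ⟨k, hk, hkx⟩ := Finset.mem_image.mp this
    exact ⟨k, Finset.mem_range.mp hk, hkx⟩
  choose g hg1 hg2 using hsurj
  have hginj : Function.Injective g := fun x y h => by rw [← hg2 x, ← hg2 y, h]
  let W : Matrix V (Fin r) ℝ := Matrix.of fun x => v (g x)
  have hA : ∀ x y, (W * Wᵀ) x y = v (g x) ⬝ᵥ v (g y) := by
    intro x y
    simp only [Matrix.mul_apply, Matrix.transpose_apply, W, Matrix.of_apply, dotProduct]
  have hlt : ∀ x y, g x < g y → ((W * Wᵀ) x y ≠ 0 ↔ G.Adj x y) := by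
    intro x y hxy
    rw [hA, Ne, hv _ _ hxy (hg1 y), hNlt _ (hg1 y), Finset.mem_filter, hg2, hg2]
    simp only [Finset.mem_range, hxy, true_and, not_not]
    exact G.adj_comm y x
  refine ⟨W * Wᵀ, ?_, ?_, ?_, ?_⟩
  · have := Matrix.posSemidef_self_mul_conjTranspose W
    rwa [Matrix.conjTranspose_eq_transpose_of_trivial] at this
  · intro x y hxy
    have hne : g x ≠ g y := fun h => hxy (by rw [← hg2 x, ← hg2 y, h])
    rcases lt_or_gt_of_ne hne with h | h
    · exact hlt x y h
    · rw [hA, dotProduct_comm, ← hA, hlt y x h]
      exact G.adj_comm y x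
  · refine sap_of_seq G r n N v g hg1 hginj ?_ hvI
    intro x y hxy hAd
    rw [hNlt _ (hg1 y), Finset.mem_filter, hg2, hg2, Finset.mem_range]
    exact ⟨hxy, fun h => hAd h.symm⟩
  · have h1 : (W * Wᵀ).rank ≤ r :=
      (Matrix.rank_mul_le_left W Wᵀ).trans (by simpa using Matrix.rank_le_card_width W)
    omega

end Pool.Agent.TH495.NuDelta
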